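import Pool.Agent.MP_3ee8cb_gt.DNOD.Dia
import Pool.Agent.MP_3ee8cb_gt.DN.Spec

/-! The diamond for the fronts of a conjugacy. -/

namespace Pool.Agent.MP_3ee8cb_gt.DN.Dia

open Set Filter Topology
open scoped RealInnerProductSpace

noncomputable section

variable [Dim]

variable {m m' : MF} {φ : V × V → V × V}

theorem skew0 (h : m.OK) (y u a : V) : ⟪m.om y u a, a⟫ = 0 := by
  have := h.skew y u a a
  rw [real_inner_comm (m.om y u a)] at this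
  linarith

theorem J_zero (h : m.OK) (z ξ : V × V) : m.J z ξ 0 = m.hor z ξ ∧ m.J' z ξ 0 = m.ver z ξ := by
  simp only [MF.J, MF.J', show m.Z 0 = id from funext h.zero, fderiv_id, id,
    ContinuousLinearMap.id_apply, and_self]

theorem d_vel (h : m.OK) (z : V × V) (t : ℝ) :
    HasDerivAt (fun s => (m.Z s z).2) (-m.w z t (m.Z t z).2) t :=
  (ContinuousLinearMap.snd ℝ V V).hasFDerivAt.comp_hasDerivAt t (h.ode z t)

theorem d_tan (h : m.OK) (hj : m.Jac) (z ξ : V × V) (t : ℝ) :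
    HasDerivAt (fun s => ⟪(m.Z s z).2, m.J z ξ s⟫) ⟪(m.Z t z).2, m.J' z ξ t⟫ t := by
  refine ((d_vel h z t).inner ℝ (hj.d1 z ξ t)).congr_deriv ?_
  rw [inner_sub_right, inner_neg_left, MF.w, h.skew]
  ring

theorem d_tan' (h : m.OK) (hj : m.Jac) (z ξ : V × V) (t : ℝ) :
    HasDerivAt (fun s => ⟪(m.Z s z).2, m.J' z ξ s⟫) 0 t := by
  refine ((d_vel h z t).inner ℝ (hj.d2 z ξ t)).congr_deriv ?_
  have := hj.sK (m.Z t z).1 (m.J z ξ t) (m.Z t z).2 (m.Z t z).2 (m.Z t z).2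
  rw [real_inner_comm (m.Z t z).2] at this
  rw [inner_sub_right, inner_neg_left, inner_neg_right, MF.w, h.skew]
  linarith

theorem tan' (h : m.OK) (hj : m.Jac) (z ξ : V × V) (t : ℝ) :
    ⟪(m.Z t z).2, m.J' z ξ t⟫ = ⟪z.2, m.ver z ξ⟫ := by
  have := is_const_of_deriv_eq_zero (fun t => (d_tan' h hj z ξ t).differentiableAt)
    (fun t => (d_tan' h hj z ξ t).deriv) t 0
  rwa [h.zero, (J_zero h z ξ).2] at this

theorem tan (h : m.OK) (hj : m.Jac) (z ξ : V × V) (t : ℝ) :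
    ⟪(m.Z t z).2, m.J z ξ t⟫ = ⟪z.2, m.hor z ξ⟫ + t * ⟪z.2, m.ver z ξ⟫ := by
  have k : ∀ t, HasDerivAt (fun s => ⟪(m.Z s z).2, m.J z ξ s⟫ - s * ⟪z.2, m.ver z ξ⟫) 0 t :=
    fun t => ((d_tan h hj z ξ t).sub ((hasDerivAt_id t).mul_const _)).congr_deriv (by
      rw [tan' h hj, one_mul, sub_self])
  have := is_const_of_deriv_eq_zero (fun t => (k t).differentiableAt) (fun t => (k t).deriv) t 0
  rw [h.zero, (J_zero h z ξ).1] at this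
  linarith

theorem fld (h : m.OK) (hj : m.Jac) {a : ℝ} (hu : m.Up (a ^ 2)) (z ξ : V × V) (hz : ‖z.2‖ = 1)
    (ht : ∀ t, a * ⟪(m.Z t z).2, m.J z ξ t⟫ = 0) : Fld a (m.J z ξ) (m.J' z ξ) := by
  refine ⟨fun s hs => ?_, fun t => ?_, fun t => ⟨_, (hj.d1 z ξ t).inner ℝ (hj.d2 z ξ t), ?_⟩⟩
  · have := hj.d1 z ξ s
    rwa [hs, map_zero, sub_zero] at this
  · refine (hj.d1 z ξ t).norm_sq.congr_deriv ?_
    rw [inner_sub_right, real_inner_comm (m.w z t _), MF.w, skew0 h, sub_zero]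
  · have h1 := hu (m.Z t z).1 (m.J z ξ t) (m.Z t z).2
    have h2 := ht t
    rw [real_inner_comm] at h2
    rw [hj.norm, hz, mul_sub, ← mul_pow a ⟪_, _⟫, h2] at h1
    rw [inner_sub_right, inner_sub_left, inner_neg_right, real_inner_self_eq_norm_sq, MF.w, h.skew,
      real_inner_comm (m.K _ _ _ _)]
    linarith

theorem dZ (h : m.OK) (t : ℝ) : Differentiable ℝ (m.Z t) :=
  (h.cZ.comp (contDiff_const.prodMk contDiff_id)).differentiable one_ne_zero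

theorem dφ (hc : CF m m' φ) {z : V × V} (hz : z.2 ≠ 0) : DifferentiableAt ℝ φ z :=
  (hc.c1.contDiffAt ((isOpen_ne_fun continuous_snd continuous_const).mem_nhds hz)).differentiableAt
    one_ne_zero

theorem comm (h : m.OK) (hj : m.Jac) (h' : m'.OK) (hc : CF m m' φ) {z : V × V} (hz : z.2 ≠ 0)
    (t : ℝ) (ξ : V × V) : fderiv ℝ (m'.Z t) (φ z) (fderiv ℝ φ z ξ) =
      fderiv ℝ φ (m.Z t z) (fderiv ℝ (m.Z t) z ξ) := by
  have h1 : (m.Z t z).2 ≠ 0 := norm_ne_zero_iff.1 (by rw [hj.norm]; exact norm_ne_zero_iff.2 hz)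
  have e : m'.Z t ∘ φ =ᶠ[𝓝 z] φ ∘ m.Z t :=
    mem_of_superset ((isOpen_ne_fun continuous_snd continuous_const).mem_nhds hz) fun y hy =>
      (hc.flow t y hy).symm
  have := e.fderiv_eq (𝕜 := ℝ)
  rw [fderiv_comp _ (dZ h' t _) (dφ hc hz), fderiv_comp _ (dφ hc h1) (dZ h t _)] at this
  exact DFunLike.congr_fun this ξ

theorem d_fr (hc : CF m m' φ) (x : V) {v : V} (hv : v ≠ 0) (e : V) :
    fderiv ℝ (fr φ x) v e = fderiv ℝ φ (x, v) (0, e) := by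
  have := ((dφ hc (z := (x, v)) hv).hasFDerivAt.comp v (hasFDerivAt_prodMk_right x v)).fderiv
  exact DFunLike.congr_fun this e

/-- The fields as linear maps. -/
def lJ (m : MF) (z : V × V) (L : V × V →L[ℝ] V × V) (t : ℝ) : V × V →ₗ[ℝ] V :=
  ((m.hor (m.Z t z)).comp ((fderiv ℝ (m.Z t) z).comp L)).toLinearMap

/-- Their derivatives. -/
def lJ' (m : MF) (z : V × V) (L : V × V →L[ℝ] V × V) (t : ℝ) : V × V →ₗ[ℝ] V :=
  ((m.ver (m.Z t z)).comp ((fderiv ℝ (m.Z t) z).comp L)).toLinearMap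

theorem hv_inj (h : m.OK) {z ξ : V × V} (h1 : m.hor z ξ = 0) (h2 : m.ver z ξ = 0) : ξ = 0 := by
  have e : ξ.1 = 0 := by rw [← h.RS z.1 ξ.1, show m.S z.1 ξ.1 = 0 from h1, map_zero]
  exact Prod.ext e (by simpa [MF.ver, e] using h2)

theorem sys {a C : ℝ} (h : m.OK) (hj : m.Jac) (h' : m'.OK) (hj' : m'.Jac) (hc : CF m m' φ)
    (hu : m.Up 0) (hu' : m'.Up (a ^ 2)) (hs : Sy m m' φ)
    (hC : ∀ z ξ : V × V, ‖z.2‖ = 1 →
      ‖m'.hor (φ z) (fderiv ℝ φ z ξ)‖ + ‖m'.ver (φ z) (fderiv ℝ φ z ξ)‖ ≤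
        C * (‖m.hor z ξ‖ + ‖m.ver z ξ‖) ∧ ‖m.hor z ξ‖ + ‖m.ver z ξ‖ ≤
        C * (‖m'.hor (φ z) (fderiv ℝ φ z ξ)‖ + ‖m'.ver (φ z) (fderiv ℝ φ z ξ)‖))
    (z : V × V) (hz : ‖z.2‖ = 1) :
    Sys a C (lJ m z (.id ℝ _)) (lJ' m z (.id ℝ _)) (lJ m' (φ z) (fderiv ℝ φ z))
      (lJ' m' (φ z) (fderiv ℝ φ z)) ((innerSL ℝ z.2).comp (m.hor z)).toLinearMap
      ((innerSL ℝ z.2).comp (m.ver z)).toLinearMap (fun t => (m.Z t z).2)
      fun t => (m'.Z t (φ z)).2 := by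
  have z0 : z.2 ≠ 0 := norm_ne_zero_iff.1 (hz ▸ one_ne_zero)
  have zt : ∀ t, ‖(m.Z t z).2‖ = 1 := fun t => (hj.norm t z).trans hz
  have zt0 : ∀ t, (m.Z t z).2 ≠ 0 := fun t => norm_ne_zero_iff.1 (zt t ▸ one_ne_zero)
  have e1 : ∀ t ξ, m'.J (φ z) (fderiv ℝ φ z ξ) t =
      m'.hor (φ (m.Z t z)) (fderiv ℝ φ (m.Z t z) (fderiv ℝ (m.Z t) z ξ)) := fun t ξ => by
    rw [MF.J, comm h hj h' hc z0, hc.flow t z z0]
  have e2 : ∀ t ξ, m'.J' (φ z) (fderiv ℝ φ z ξ) t =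
      m'.ver (φ (m.Z t z)) (fderiv ℝ φ (m.Z t z) (fderiv ℝ (m.Z t) z ξ)) := fun t ξ => by
    rw [MF.J', comm h hj h' hc z0, hc.flow t z z0]
  have tn : ∀ t ξ, ⟪(m'.Z t (φ z)).2, m'.J (φ z) (fderiv ℝ φ z ξ) t⟫ =
      ⟪z.2, m.hor z ξ⟫ + t * ⟪z.2, m.ver z ξ⟫ := fun t ξ => by
    rw [e1, ← hc.flow t z z0, hs.al _ _ (zt0 t), ← tan h hj]
    rfl
  refine ⟨fun s ξ h1 h2 => ?_, fun ξ => fld h hj (by simpa using hu) z ξ hz fun t => zero_mul _,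
    fun ξ h1 h2 => fld h' hj' hu' _ (fderiv ℝ φ z ξ) ((hc.norm z z0).trans hz) fun t => ?_, fun ξ η s t => ?_,
    fun t ξ => ?_, fun t ξ => ?_, fun t ξ => tan h hj z ξ t, tn, fun t ξ => ?_⟩
  · have k : ∀ η, ⟪m.hor z ξ, m.ver z η⟫ = ⟪m.ver z ξ, m.hor z η⟫ := fun η => by
      have := hj.symp z ξ η s
      rw [show m.J z ξ s = 0 from h1, show m.J' z ξ s = 0 from h2, inner_zero_left,
        inner_zero_left, sub_zero] at this
      exact sub_eq_zero.1 this.symm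
    have k1 : m.hor z ξ = 0 := by
      have := k (0, m.hor z ξ)
      simpa [MF.hor, MF.ver] using this
    refine hv_inj h k1 ?_
    have := k (m.R z.1 (m.ver z ξ), 0)
    rw [k1, inner_zero_left, show m.hor z (m.R z.1 (m.ver z ξ), 0) = m.ver z ξ from h.SR _ _] at this
    exact inner_self_eq_zero.1 this.symm
  · rw [tn, show ⟪z.2, m.hor z ξ⟫ = 0 from h1, show ⟪z.2, m.ver z ξ⟫ = 0 from h2]
    ring
  · exact (hj'.symp _ _ _ t).trans ((hs.om z ξ η z0).trans (hj.symp z ξ η s).symm)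
  · change ‖m'.J (φ z) (fderiv ℝ φ z ξ) t‖ + ‖m'.J' (φ z) (fderiv ℝ φ z ξ) t‖ ≤ _
    rw [e1, e2]
    exact (hC _ _ (zt t)).1
  · change _ ≤ C * (‖m'.J (φ z) (fderiv ℝ φ z ξ) t‖ + ‖m'.J' (φ z) (fderiv ℝ φ z ξ) t‖)
    rw [e1, e2]
    exact (hC _ _ (zt t)).2
  · have k1 := d_tan h' hj' (φ z) (fderiv ℝ φ z ξ) t
    rw [funext fun t => tn t ξ] at k1
    have k2 := k1.unique (((hasDerivAt_id t).mul_const _).const_add _)
    rw [one_mul] at k2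
    exact k2

end

end Pool.Agent.MP_3ee8cb_gt.DN.Dia

namespace Pool.Agent.MP_3ee8cb_gt.DN

open Dia
open scoped RealInnerProductSpace

variable [Dim]

theorem good45 : OnC fun m m' φ a _ => Sy m m' φ → (∃ T₀, ∀ x, m'.Good (fr φ x) T₀) ∧
    ∀ x v e t, ‖v‖ = 1 → ⟪v, e⟫ = 0 →
      a * |⟪m'.J (fr φ x v) (fderiv ℝ (fr φ x) v e) t, m'.J' (fr φ x v) (fderiv ℝ (fr φ x) v e) t⟫| ≤
        ‖m'.J' (fr φ x v) (fderiv ℝ (fr φ x) v e) t‖ ^ 2 := by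
  intro m m' φ a hi h hj h' hj' hc ha hu hu' _ hs
  obtain ⟨C, hC⟩ := hc.bdd
  obtain ⟨T, hT⟩ := exists_T a C ha
  have S := fun x v (hv : ‖v‖ = 1) => sys h hj h' hj' hc hu hu' hs hC (x, v) hv
  have v0 : ∀ {v : V}, ‖v‖ = 1 → v ≠ 0 := fun hv => norm_ne_zero_iff.1 (hv ▸ one_ne_zero)
  have j0 : ∀ (z : V × V) e, lJ m z (.id ℝ _) 0 (0, e) = 0 := fun z e =>
    (J_zero h z (0, e)).1.trans (by simp [MF.hor])
  have t0 : ∀ x v e : V, ⟪v, e⟫ = 0 →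
      ((innerSL ℝ v).comp (m.ver (x, v))).toLinearMap (0, e) = 0 := fun x v e he => by
    simpa [MF.ver] using he
  refine ⟨⟨T, fun x => ⟨fun v e t hv he h0 => ?_, fun v e e' t hv _ _ => ?_,
    fun v e t hv he e0 ht => ?_⟩⟩, fun x v e t hv he => ?_⟩
  · rw [d_fr hc x (v0 hv)] at h0
    exact congrArg Prod.snd (((S x v hv).dia ha (j0 _ e) (t0 x v e he)).2 h0)
  · rw [d_fr hc x (v0 hv), d_fr hc x (v0 hv)]
    exact (S x v hv).lag (j0 _ e) (j0 _ e') t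
  · rw [d_fr hc x (v0 hv)]
    exact hT (S x v hv) 0 t _ (by rwa [zero_add]) (j0 _ e) (t0 x v e he)
      fun k => e0 (congrArg Prod.snd k)
  · rw [d_fr hc x (v0 hv)]
    exact ((S x v hv).dia ha (j0 _ e) (t0 x v e he)).1

end Pool.Agent.MP_3ee8cb_gt.DN
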