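import Pool.Agent.MP_3ee8cb_gt.DNOD.Ric
import Pool.Agent.MP_3ee8cb_gt.DN.Spec2

/-! The diamond and the Riccati inequality in every dimension. -/

namespace Pool.Agent.MP_3ee8cb_gt.DN

open Dia
open scoped RealInnerProductSpace

variable [Dim]

theorem Dia.op_sq {B : V →L[ℝ] V} (hB : B.toLinearMap.IsSymmetric)
    {f : OrthonormalBasis (Fin dm) ℝ V} {b : Fin dm → ℝ} (e : ∀ i, B (f i) = b i • f i) {c : ℝ}
    (c0 : 0 ≤ c) (hc : ∀ i, b i ^ 2 ≤ c) : ‖B‖ ^ 2 ≤ c := by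
  rw [← Real.le_sqrt (norm_nonneg _) c0]
  refine B.opNorm_le_bound (Real.sqrt_nonneg _) fun y => le_of_sq_le_sq ?_ (by positivity)
  rw [mul_pow, Real.sq_sqrt c0, nsq hB e, ← f.sum_sq_inner_right y, Finset.mul_sum]
  exact Finset.sum_le_sum fun i _ => mul_le_mul_of_nonneg_right (hc i) (sq_nonneg _)

theorem sOD2 : SOD2 := by
  intro m m' φ a hi h hj h' hj' hc ha hu hu' hd hs
  refine ⟨(good45 m m' φ a hi h hj h' hj' hc ha hu hu' hd hs).1, fun z hz => ?_⟩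
  have P := pt m m' φ a hi h hj h' hj' hc ha hu hu' hd hs z hz
  obtain ⟨f, b, e, bd⟩ := P.eig
  obtain ⟨d, d1, d2⟩ := ric m m' φ a hi h hj h' hj' hc ha hu hu' hd hs z hz f b e
  refine ⟨(had_log f _ _ fun i => (inv_app P.inj).1 (f i)).1, ?_, d, d1, d2.trans ?_⟩
  · have k := op_sq P.sym e (sq_nonneg a⁻¹) fun i => by
      rw [← sq_abs]
      exact pow_le_pow_left₀ (abs_nonneg _) (by
        rw [← mul_one a⁻¹, le_inv_mul_iff₀ ha]; exact bd i) 2
    have := le_of_sq_le_sq k (inv_pos.2 ha).le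
    rwa [← mul_one a⁻¹, le_inv_mul_iff₀ ha] at this
  · rw [mul_pow]
    exact sub_le_sub_left (mul_le_mul_of_nonneg_left (op_sq P.sym e (by positivity) fun i =>
      Finset.single_le_sum (fun j _ => sq_nonneg (b j)) (Finset.mem_univ i)) (sq_nonneg a)) _

end Pool.Agent.MP_3ee8cb_gt.DN
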