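import Pool.Agent.MP_3ee8cb_gt.DNOD.DiaG

/-! The Riccati inequality for the trace of the shape operator of the fronts. -/

namespace Pool.Agent.MP_3ee8cb_gt.DN.Dia

open Module
open scoped RealInnerProductSpace

noncomputable section

theorem clm_diff {E F : Type} [NormedAddCommGroup E] [NormedSpace ℝ E] [FiniteDimensional ℝ E]
    [NormedAddCommGroup F] [NormedSpace ℝ F] {P : ℝ → E →L[ℝ] F} {t : ℝ}
    (h : ∀ x, DifferentiableAt ℝ (fun s => P s x) t) : DifferentiableAt ℝ P t := by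
  let b := finBasis ℝ E
  have e : P = fun s => ∑ i, ContinuousLinearMap.smulRightL ℝ E F
      (LinearMap.toContinuousLinearMap (b.coord i)) (P s (b i)) := by
    funext s
    ext x
    conv_lhs => rw [← b.sum_repr x, map_sum]
    simp
  rw [e]
  exact DifferentiableAt.fun_sum fun i _ =>
    (ContinuousLinearMap.differentiableAt _).comp t (h (b i))

/-- The curve of preimages of a fixed vector. -/
theorem path {E : Type} [NormedAddCommGroup E] [NormedSpace ℝ E] [FiniteDimensional ℝ E]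
    {P : ℝ → E →L[ℝ] E} (hi : ∀ t x, P t x = 0 → x = 0)
    (h : ∀ x, DifferentiableAt ℝ (fun s => P s x) 0) (η : E) :
    ∃ ξ : ℝ → E, (∀ t, P t (ξ t) = η) ∧ DifferentiableAt ℝ ξ 0 := by
  have := FiniteDimensional.complete ℝ E
  have k : ∀ t, ∃ e : E ≃L[ℝ] E, (e : E →L[ℝ] E) = P t := fun t =>
    ⟨(LinearEquiv.ofInjectiveEndo (P t).toLinearMap
      ((injective_iff_map_eq_zero _).2 (hi t))).toContinuousLinearEquiv, by ext x; rfl⟩
  refine ⟨fun t => (P t).inverse η, fun t => ?_, ?_⟩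
  · obtain ⟨e, he⟩ := k t
    simp [← he]
  · obtain ⟨e, he⟩ := k 0
    have h1 := (contDiffAt_map_inverse (𝕜 := ℝ) (n := 1) e).differentiableAt one_ne_zero
    rw [he] at h1
    exact (h1.comp 0 (clm_diff h)).clm_apply (differentiableAt_const _)

theorem der_app {E F : Type} [NormedAddCommGroup E] [NormedSpace ℝ E] [FiniteDimensional ℝ E]
    [NormedAddCommGroup F] [NormedSpace ℝ F] {P : ℝ → E →L[ℝ] F} {D : E → F}
    (h : ∀ x, HasDerivAt (fun s => P s x) (D x) 0) {ξ : ℝ → E} {ζ : E} (hξ : HasDerivAt ξ ζ 0) :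
    HasDerivAt (fun s => P s (ξ s)) (D (ξ 0) + P 0 ζ) 0 := by
  have h1 := (clm_diff fun x => (h x).differentiableAt).hasDerivAt
  have h2 := (h1.clm_apply (hasDerivAt_const 0 (ξ 0))).unique (h (ξ 0))
  rw [map_zero, add_zero] at h2
  exact h2 ▸ h1.clm_apply hξ

theorem inv_app {E : Type} [NormedAddCommGroup E] [NormedSpace ℝ E] [FiniteDimensional ℝ E]
    {P : E →L[ℝ] E} (hi : ∀ x, P x = 0 → x = 0) :
    (∀ y, P (P.inverse y) = y) ∧ ∀ x, P.inverse (P x) = x := by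
  obtain ⟨e, he⟩ : ∃ e : E ≃L[ℝ] E, (e : E →L[ℝ] E) = P :=
    ⟨(LinearEquiv.ofInjectiveEndo P.toLinearMap
      ((injective_iff_map_eq_zero _).2 hi)).toContinuousLinearEquiv, by ext x; rfl⟩
  simp [← he]

variable [Dim] {m m' : MF} {φ : V × V → V × V}

/-- Hadamard's inequality in logarithmic form. -/
theorem had_log (f : OrthonormalBasis (Fin dm) ℝ V) (e : Fin dm → V) (L : V →L[ℝ] V)
    (h : ∀ i, L (e i) = f i) : L.det ≠ 0 ∧ ∑ i, (1 - ‖e i‖ ^ 2) ≤ 2 * Real.log |L.det| := by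
  have : Fact (finrank ℝ V = dm) := ⟨finrank_euclideanSpace_fin⟩
  have h1 : L.det * f.toBasis.det e = 1 := by
    rw [ContinuousLinearMap.det, ← Basis.det_comp, show L.toLinearMap ∘ e = f.toBasis from funext h,
      Basis.det_self]
  have h2 := f.toBasis.orientation.abs_volumeForm_apply_le e
  rw [Orientation.volumeForm_robust' _ f] at h2
  have e0 : ∀ i, 0 < ‖e i‖ := fun i => norm_pos_iff.2 fun k =>
    f.orthonormal.ne_zero i (by rw [← h, k, map_zero])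
  have h3 := Real.log_le_log (abs_pos.2 (right_ne_zero_of_mul_eq_one h1)) h2
  rw [eq_inv_of_mul_eq_one_right h1, abs_inv, Real.log_inv,
    Real.log_prod fun i _ => (e0 i).ne'] at h3
  refine ⟨left_ne_zero_of_mul_eq_one h1, le_trans (Finset.sum_le_sum fun i _ =>
    show _ ≤ -2 * Real.log ‖e i‖ from ?_) ?_⟩
  · have := Real.log_le_sub_one_of_pos (pow_pos (e0 i) 2)
    rw [Real.log_pow] at this
    push_cast at this
    linarith
  · rw [← Finset.mul_sum]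
    linarith

theorem J_fr (h' : m'.OK) (x v e : V) :
    m'.J (fr φ x v) (fderiv ℝ (fr φ x) v e) 0 = m'.A (fr φ x) v e ∧
      m'.J' (fr φ x v) (fderiv ℝ (fr φ x) v e) 0 = m'.A' (fr φ x) v e := J_zero h' _ _

/-- The derivatives of the two operators along the flow. -/
theorem der (h : m.OK) (hj : m.Jac) (h' : m'.OK) (hj' : m'.Jac) (hc : CF m m' φ) (hs : Sy m m' φ)
    (hi : ∀ z s ξ, ‖z.2‖ = 1 → m.J z ξ s = 0 → m.J' z ξ s = 0 → ξ = 0) {z : V × V}
    (hz : ‖z.2‖ = 1) (e : V) : ∃ p q : V,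
      ⟪p, m'.A' (fr φ z.1) z.2 e⟫ - ⟪q, m'.A (fr φ z.1) z.2 e⟫ = -‖e‖ ^ 2 ∧
      HasDerivAt (fun t => m'.A (fr φ (m.Z t z).1) (m.Z t z).2 e)
        (m'.A' (fr φ z.1) z.2 e - m'.w (φ z) 0 (m'.A (fr φ z.1) z.2 e) + p) 0 ∧
      HasDerivAt (fun t => m'.A' (fr φ (m.Z t z).1) (m.Z t z).2 e)
        (-m'.K (φ z).1 (m'.A (fr φ z.1) z.2 e) (φ z).2 (φ z).2 -
          m'.w (φ z) 0 (m'.A' (fr φ z.1) z.2 e) + q) 0 := by
  have z0 : z.2 ≠ 0 := norm_ne_zero_iff.1 (hz ▸ one_ne_zero)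
  have zt0 : ∀ t, (m.Z t z).2 ≠ 0 := fun t => norm_ne_zero_iff.1 (by rw [hj.norm, hz]; simp)
  let p : ℝ → V × V →L[ℝ] V := fun t => (m.hor (m.Z t z)).comp (fderiv ℝ (m.Z t) z)
  let p' : ℝ → V × V →L[ℝ] V := fun t => (m.ver (m.Z t z)).comp (fderiv ℝ (m.Z t) z)
  let Q : ℝ → V × V →L[ℝ] V := fun t =>
    (m'.hor (m'.Z t (φ z))).comp ((fderiv ℝ (m'.Z t) (φ z)).comp (fderiv ℝ φ z))
  let Q' : ℝ → V × V →L[ℝ] V := fun t =>
    (m'.ver (m'.Z t (φ z))).comp ((fderiv ℝ (m'.Z t) (φ z)).comp (fderiv ℝ φ z))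
  obtain ⟨ξ, h1, h2⟩ := path (P := fun t => (p t).prod (p' t))
    (fun t x k => hi z t x hz (congrArg Prod.fst k) (congrArg Prod.snd k))
    (fun x => (hj.d1 z x 0).differentiableAt.prodMk (hj.d2 z x 0).differentiableAt) (0, e)
  have a1 : ∀ t, m.J z (ξ t) t = 0 := fun t => congrArg Prod.fst (h1 t)
  have a2 : ∀ t, m.J' z (ξ t) t = e := fun t => congrArg Prod.snd (h1 t)
  have a3 : ∀ t, fderiv ℝ (m.Z t) z (ξ t) = (0, e) := fun t => by
    refine sub_eq_zero.1 (hv_inj h (z := m.Z t z) ?_ ?_)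
    · rw [map_sub, show m.hor _ _ = 0 from a1 t]
      simp [MF.hor]
    · rw [map_sub, show m.ver _ _ = e from a2 t]
      simp [MF.ver]
  have a4 : ∀ t, fderiv ℝ (fr φ (m.Z t z).1) (m.Z t z).2 e =
      fderiv ℝ (m'.Z t) (φ z) (fderiv ℝ φ z (ξ t)) := fun t => by
    rw [d_fr hc _ (zt0 t), comm h hj h' hc z0, a3]
  have a5 : ∀ t, fr φ (m.Z t z).1 (m.Z t z).2 = m'.Z t (φ z) := fun t => hc.flow t z z0
  have b1 : (fun t => m'.A (fr φ (m.Z t z).1) (m.Z t z).2 e) = fun t => Q t (ξ t) :=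
    funext fun t => by rw [MF.A, ContinuousLinearMap.comp_apply, a4, a5]; rfl
  have b2 : (fun t => m'.A' (fr φ (m.Z t z).1) (m.Z t z).2 e) = fun t => Q' t (ξ t) :=
    funext fun t => by rw [MF.A', ContinuousLinearMap.comp_apply, a4, a5]; rfl
  have c1 : m'.J (φ z) (fderiv ℝ φ z (ξ 0)) 0 = m'.A (fr φ z.1) z.2 e := by
    have := (congrFun b1 0).symm
    rwa [h.zero] at this
  have c2 : m'.J' (φ z) (fderiv ℝ φ z (ξ 0)) 0 = m'.A' (fr φ z.1) z.2 e := by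
    have := (congrFun b2 0).symm
    rwa [h.zero] at this
  have d0 := der_app (P := p) (fun x => hj.d1 z x 0) h2.hasDerivAt
  rw [show (fun s => p s (ξ s)) = fun _ => 0 from funext a1, a1, a2, map_zero, sub_zero] at d0
  have d1 : m.J z (deriv ξ 0) 0 = -e := eq_neg_of_add_eq_zero_right (d0.unique (hasDerivAt_const _ _))
  have d2 := der_app (P := Q) (fun x => hj'.d1 (φ z) (fderiv ℝ φ z x) 0) h2.hasDerivAt
  have d3 := der_app (P := Q') (fun x => hj'.d2 (φ z) (fderiv ℝ φ z x) 0) h2.hasDerivAt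
  rw [c1, c2, ← b1] at d2
  rw [c1, c2, ← b2, h'.zero] at d3
  refine ⟨_, _, ?_, d2, d3⟩
  have s := (hj'.symp _ _ _ 0).trans ((hs.om z (deriv ξ 0) (ξ 0) z0).trans (hj.symp z _ _ 0).symm)
  rwa [c1, c2, a1, a2, d1, inner_zero_right, sub_zero, inner_neg_left,
    real_inner_self_eq_norm_sq] at s

/-- The pointwise facts on the two operators. -/
structure Pt (a : ℝ) (v n : V) (A A' : V →L[ℝ] V) : Prop where
  t1 : ∀ e, ⟪n, A' e⟫ = ⟪v, e⟫
  t2 : ∀ e, ⟪n, A e⟫ = 0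
  lag : ∀ e e', ⟪A e, A' e'⟫ = ⟪A' e, A e'⟫
  inj : ∀ e, A' e = 0 → e = 0
  bd : ∀ e, ⟪v, e⟫ = 0 → a * |⟪A e, A' e⟫| ≤ ‖A' e‖ ^ 2

theorem pt : OnC fun m m' φ a _ => Sy m m' φ → ∀ z : V × V, ‖z.2‖ = 1 →
    Pt a z.2 (φ z).2 (m'.A (fr φ z.1) z.2) (m'.A' (fr φ z.1) z.2) := by
  intro m m' φ a hi h hj h' hj' hc ha hu hu' hd hs z hz
  obtain ⟨⟨T, hG⟩, hb⟩ := good45 m m' φ a hi h hj h' hj' hc ha hu hu' hd hs
  obtain ⟨C, hC⟩ := hc.bdd
  have S := sys h hj h' hj' hc hu hu' hs hC z hz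
  have z0 : z.2 ≠ 0 := norm_ne_zero_iff.1 (hz ▸ one_ne_zero)
  have eA : ∀ e, lJ m' (φ z) (fderiv ℝ φ z) 0 (0, e) = m'.A (fr φ z.1) z.2 e := fun e => by
    rw [← (J_fr h' _ _ e).1, d_fr hc _ z0]; rfl
  have eA' : ∀ e, lJ' m' (φ z) (fderiv ℝ φ z) 0 (0, e) = m'.A' (fr φ z.1) z.2 e := fun e => by
    rw [← (J_fr h' _ _ e).2, d_fr hc _ z0]; rfl
  have j0 : ∀ e, lJ m z (.id ℝ _) 0 (0, e) = 0 := fun e =>
    (J_zero h z (0, e)).1.trans (by simp [MF.hor])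
  have t1 : ∀ e, ⟪(φ z).2, m'.A' (fr φ z.1) z.2 e⟫ = ⟪z.2, e⟫ := fun e => by
    have := S.tn' 0 (0, e)
    rw [eA', h'.zero] at this
    simpa [MF.ver] using this
  refine ⟨t1, fun e => ?_, fun e e' => ?_, fun e k => ?_, fun e he => ?_⟩
  · have := S.tn 0 (0, e)
    rw [eA, h'.zero] at this
    simpa [MF.hor] using this
  · rw [← eA, ← eA, ← eA', ← eA']
    exact S.lag (j0 e) (j0 e') 0
  · exact (hG z.1).inj z.2 e 0 hz (by rw [← t1, k, inner_zero_right])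
      (by rw [(J_fr h' _ _ e).2, k])
  · have := hb z.1 z.2 e 0 hz he
    rwa [(J_fr h' _ _ _).1, (J_fr h' _ _ _).2] at this

namespace Pt

variable {a : ℝ} {v n : V} {A A' : V →L[ℝ] V} (h : Pt a v n A A')
include h

theorem sym : (A.comp A'.inverse).toLinearMap.IsSymmetric := fun x y => by
  have := h.lag (A'.inverse x) (A'.inverse y)
  rwa [(inv_app h.inj).1, (inv_app h.inj).1] at this

theorem eig : ∃ (f : OrthonormalBasis (Fin dm) ℝ V) (b : Fin dm → ℝ),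
    (∀ i, A (A'.inverse (f i)) = b i • f i) ∧ ∀ i, a * |b i| ≤ 1 := by
  have hn : finrank ℝ V = dm := finrank_euclideanSpace_fin
  have e := h.sym.apply_eigenvectorBasis hn
  refine ⟨_, _, e, fun i => ?_⟩
  generalize h.sym.eigenvalues hn = b at e
  generalize h.sym.eigenvectorBasis hn = f at e
  have e1 : A (A'.inverse (f i)) = b i • f i := e i
  by_cases b0 : b i = 0
  · simp [b0]
  have k := h.t2 (A'.inverse (f i))
  rw [e1, real_inner_smul_right] at k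
  have := h.bd (A'.inverse (f i)) (by
    rw [← h.t1, (inv_app h.inj).1, (mul_eq_zero.1 k).resolve_left b0])
  simpa [e1, (inv_app h.inj).1, real_inner_smul_left] using this

end Pt

/-- The squared norm of the image of a vector in a basis of eigenvectors. -/
theorem nsq {B : V →L[ℝ] V} (hB : B.toLinearMap.IsSymmetric) {f : OrthonormalBasis (Fin dm) ℝ V}
    {b : Fin dm → ℝ} (e : ∀ i, B (f i) = b i • f i) (y : V) :
    ‖B y‖ ^ 2 = ∑ i, b i ^ 2 * ⟪f i, y⟫ ^ 2 := by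
  rw [← f.sum_sq_inner_right]
  refine Finset.sum_congr rfl fun i _ => ?_
  rw [show ⟪f i, B y⟫ = ⟪B (f i), y⟫ from (hB _ _).symm, e, real_inner_smul_left, mul_pow]

theorem tr_sq {B : V →L[ℝ] V} {f : OrthonormalBasis (Fin dm) ℝ V}
    {b : Fin dm → ℝ} (e : ∀ i, B (f i) = b i • f i) :
    LinearMap.trace ℝ V (B.comp B).toLinearMap = ∑ i, b i ^ 2 := by
  rw [LinearMap.trace_eq_sum_inner _ f]
  simp [e, real_inner_smul_right, sq]

theorem hs_eq {B : V →L[ℝ] V} (hB : B.toLinearMap.IsSymmetric)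
    {f : OrthonormalBasis (Fin dm) ℝ V} {b : Fin dm → ℝ} (e : ∀ i, B (f i) = b i • f i)
    (g : OrthonormalBasis (Fin dm) ℝ V) : ∑ j, ‖B (g j)‖ ^ 2 = ∑ i, b i ^ 2 := by
  simp only [nsq hB e]
  rw [Finset.sum_comm]
  refine Finset.sum_congr rfl fun i _ => ?_
  rw [← Finset.mul_sum, g.sum_sq_inner_left, f.orthonormal.1, one_pow, mul_one]

theorem ric : OnC fun m m' φ a _ => Sy m m' φ → ∀ z : V × V, ‖z.2‖ = 1 →
    ∀ (f : OrthonormalBasis (Fin dm) ℝ V) (b : Fin dm → ℝ),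
    (∀ i, m'.A (fr φ z.1) z.2 ((m'.A' (fr φ z.1) z.2).inverse (f i)) = b i • f i) →
    ∃ d, HasDerivAt (fun t => LinearMap.trace ℝ V ((m'.A (fr φ (m.Z t z).1) (m.Z t z).2).comp
      (m'.A' (fr φ (m.Z t z).1) (m.Z t z).2).inverse).toLinearMap) d 0 ∧
      d ≤ 2 * Real.log |(m'.A' (fr φ z.1) z.2).det| - a ^ 2 * ∑ i, b i ^ 2 := by
  intro m m' φ a hi h hj h' hj' hc ha hu hu' hd hs z hz f b hf
  have P := pt m m' φ a hi h hj h' hj' hc ha hu hu' hd hs
  obtain ⟨C, hC⟩ := hc.bdd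
  have n1 : ‖(φ z).2‖ = 1 := (hc.norm z (norm_ne_zero_iff.1 (hz ▸ one_ne_zero))).trans hz
  choose p q s d1 d2 using der h hj h' hj' hc hs
    (fun z s ξ hz => (sys h hj h' hj' hc hu hu' hs hC z hz).inj s ξ) hz
  have Pz := P z hz
  have it := fun t => (P (m.Z t z) ((hj.norm t z).trans hz)).inj
  obtain ⟨L, hL⟩ := hj'.lK (φ z).1
  obtain ⟨e, he⟩ : ∃ e : Fin dm → V, e = fun i => (m'.A' (fr φ z.1) z.2).inverse (f i) := ⟨_, rfl⟩
  have e1 : ∀ i, m'.A' (fr φ z.1) z.2 (e i) = f i := fun i => he ▸ (inv_app Pz.inj).1 _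
  have e2 : ∀ i, m'.A (fr φ z.1) z.2 (e i) = b i • f i := fun i => he ▸ hf i
  have k : ∀ i, ∃ d, HasDerivAt (fun t => ⟪f i, m'.A (fr φ (m.Z t z).1) (m.Z t z).2
      ((m'.A' (fr φ (m.Z t z).1) (m.Z t z).2).inverse (f i))⟫) d 0 ∧
        d ≤ 1 - ‖e i‖ ^ 2 - a ^ 2 * b i ^ 2 := fun i => by
    obtain ⟨ξ, x1, x2⟩ := path it (fun x => (d2 x).differentiableAt) (f i)
    have x3 : ∀ t, (m'.A' (fr φ (m.Z t z).1) (m.Z t z).2).inverse (f i) = ξ t := fun t => by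
      rw [← x1 t, (inv_app (it t)).2]
    have x4 : ξ 0 = e i := by rw [← x3, h.zero, he]
    have y1 := der_app d1 x2.hasDerivAt
    have y2 := der_app d2 x2.hasDerivAt
    rw [funext x1] at y2
    have y3 := congrArg (⟪b i • f i, ·⟫) (y2.unique (hasDerivAt_const _ _))
    simp only [x3]
    refine ⟨_, (innerSL ℝ (f i)).hasFDerivAt.comp_hasDerivAt 0 y1, ?_⟩
    have y4 := Pz.lag (e i) (deriv ξ 0)
    have y5 := s (e i)
    have y6 := hu' (φ z).1 (b i • f i) (φ z).2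
    have y7 : ⟪f i, m'.w (φ z) 0 (f i)⟫ = 0 := (real_inner_comm _ _).trans (skew0 h' _ _ _)
    rw [real_inner_comm (φ z).2, ← e2, Pz.t2, e2, n1, norm_smul, f.orthonormal.1] at y6
    simp only [x4, h.zero, e1, e2, innerSL_apply_apply, inner_add_right, inner_sub_right,
      inner_neg_right, map_smul, real_inner_smul_right, real_inner_smul_left, y7, hL, smul_apply,
      real_inner_self_eq_norm_sq, f.orthonormal.1, inner_zero_right, Real.norm_eq_abs, mul_one,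
      sq_abs, real_inner_comm (f i)] at y3 y4 y5 y6 ⊢
    nlinarith
  choose d k1 k2 using k
  refine ⟨∑ i, d i, ?_, ?_⟩
  · simp only [LinearMap.trace_eq_sum_inner _ f]
    exact HasDerivAt.fun_sum fun i _ => k1 i
  · refine (Finset.sum_le_sum fun i _ => k2 i).trans ?_
    rw [Finset.sum_sub_distrib, ← Finset.mul_sum]
    exact sub_le_sub_right (had_log f e _ e1).2 _

end

end Pool.Agent.MP_3ee8cb_gt.DN.Dia
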