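import Pool.Agent.MP_3ee8cb_gt.DNOD.Fld

/-! The diamond: images of the Lagrangian planes of fields that vanish at one time. -/

namespace Pool.Agent.MP_3ee8cb_gt.DN.Dia

open Set Filter Topology
open scoped RealInnerProductSpace

noncomputable section

variable [Dim]

/-- A symmetric map without negative eigenvalues is nonnegative. -/
theorem nonneg_of_eig {B : V →ₗ[ℝ] V} (hB : B.IsSymmetric)
    (h : ∀ (β : ℝ) y, y ≠ 0 → B y = β • y → 0 ≤ β) (y : V) : 0 ≤ ⟪B y, y⟫ := by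
  have hn : Module.finrank ℝ V = dm := finrank_euclideanSpace_fin
  let b := hB.eigenvectorBasis hn
  have e : ∀ i, B (b i) = hB.eigenvalues hn i • b i := fun i => hB.apply_eigenvectorBasis hn i
  rw [← b.sum_inner_mul_inner]
  refine Finset.sum_nonneg fun i _ => ?_
  rw [hB, e, real_inner_smul_right, real_inner_comm, mul_assoc]
  exact mul_nonneg (h _ _ (b.orthonormal.ne_zero i) (e i)) (mul_self_nonneg _)

/-- Two families of Jacobi fields with the same parameter. -/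
structure Sys (a C : ℝ) (j j' J J' : ℝ → V × V →ₗ[ℝ] V) (τ τ' : V × V →ₗ[ℝ] ℝ)
    (p q : ℝ → V) : Prop where
  inj : ∀ s ξ, j s ξ = 0 → j' s ξ = 0 → ξ = 0
  fm : ∀ ξ, Fld 0 (fun t => j t ξ) fun t => j' t ξ
  fn : ∀ ξ, τ ξ = 0 → τ' ξ = 0 → Fld a (fun t => J t ξ) fun t => J' t ξ
  symp : ∀ ξ η s t, ⟪J t ξ, J' t η⟫ - ⟪J' t ξ, J t η⟫ = ⟪j s ξ, j' s η⟫ - ⟪j' s ξ, j s η⟫
  up : ∀ t ξ, ‖J t ξ‖ + ‖J' t ξ‖ ≤ C * (‖j t ξ‖ + ‖j' t ξ‖)
  dn : ∀ t ξ, ‖j t ξ‖ + ‖j' t ξ‖ ≤ C * (‖J t ξ‖ + ‖J' t ξ‖)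
  tm : ∀ t ξ, ⟪p t, j t ξ⟫ = τ ξ + t * τ' ξ
  tn : ∀ t ξ, ⟪q t, J t ξ⟫ = τ ξ + t * τ' ξ
  tn' : ∀ t ξ, ⟪q t, J' t ξ⟫ = τ' ξ

namespace Sys

variable {a C : ℝ} {j j' J J' : ℝ → V × V →ₗ[ℝ] V} {τ τ' : V × V →ₗ[ℝ] ℝ} {p q : ℝ → V}
  (h : Sys a C j j' J J' τ τ' p q)
include h

theorem rev : Sys a C (fun t => j (-t)) (fun t => -j' (-t)) (fun t => J (-t)) (fun t => -J' (-t))
    τ (-τ') (fun t => p (-t)) fun t => q (-t) where
  inj s ξ h1 h2 := h.inj (-s) ξ h1 (neg_eq_zero.1 h2)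
  fm ξ := (h.fm ξ).rev
  fn ξ h1 h2 := (h.fn ξ h1 (neg_eq_zero.1 h2)).rev
  symp ξ η s t := by
    simp only [LinearMap.neg_apply, inner_neg_left, inner_neg_right]
    linarith [h.symp ξ η (-s) (-t)]
  up t ξ := by simpa using h.up (-t) ξ
  dn t ξ := by simpa using h.dn (-t) ξ
  tm t ξ := by simpa using h.tm (-t) ξ
  tn t ξ := by simpa using h.tn (-t) ξ
  tn' t ξ := by simpa using h.tn' (-t) ξ

/-- The fields that vanish at time `s`. -/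
theorem io (s : ℝ) : ∃ ι : V →ₗ[ℝ] V × V, ∀ e, j s (ι e) = 0 ∧ j' s (ι e) = e := by
  have h1 : Function.Injective ((j s).prod (j' s)) :=
    (injective_iff_map_eq_zero _).2 fun ξ e => h.inj s ξ (congrArg Prod.fst e) (congrArg Prod.snd e)
  let E := LinearEquiv.ofInjectiveEndo _ h1
  exact ⟨E.symm.toLinearMap ∘ₗ LinearMap.inr ℝ V V, fun e =>
    ⟨congrArg Prod.fst (E.apply_symm_apply (0, e)), congrArg Prod.snd (E.apply_symm_apply (0, e))⟩⟩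

theorem tau {s : ℝ} {ξ : V × V} (h0 : j s ξ = 0) (h1 : τ' ξ = 0) : τ ξ = 0 := by
  have := h.tm s ξ
  rwa [h0, h1, inner_zero_right, mul_zero, add_zero, eq_comm] at this

theorem lag {s : ℝ} {ξ η : V × V} (h0 : j s ξ = 0) (h1 : j s η = 0) (t : ℝ) :
    ⟪J t ξ, J' t η⟫ = ⟪J' t ξ, J t η⟫ := by
  have := h.symp ξ η s t
  rwa [h0, h1, inner_zero_left, inner_zero_right, sub_zero, sub_eq_zero] at this

theorem C0 : 0 < C := by
  obtain ⟨ι, hι⟩ := h.io 0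
  obtain ⟨e, he⟩ := exists_ne (0 : V)
  have := h.dn 0 (ι e)
  rw [(hι e).1, (hι e).2, norm_zero, zero_add] at this
  exact (pos_iff_pos_of_mul_pos ((norm_pos_iff.2 he).trans_le this)).2
    (lt_of_le_of_ne (by positivity) fun z => by
      rw [← z, mul_zero] at this
      exact he (norm_le_zero_iff.1 this))

/-- The image field is small at the time where the field vanishes. -/
theorem small {s t : ℝ} {ξ : V × V} (h0 : j s ξ = 0) (hst : s ≤ t) :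
    (t - s) * (‖J s ξ‖ + ‖J' s ξ‖) ≤ C ^ 2 * (‖J t ξ‖ + ‖J' t ξ‖) := by
  have h1 := (h.fm ξ).grow h0 hst
  have h2 := h.up s ξ
  have h3 := h.dn t ξ
  have c := h.C0
  rw [h0, norm_zero, zero_add] at h2
  have h4 := mul_le_mul_of_nonneg_left h2 (sub_nonneg.2 hst)
  have h5 := mul_le_mul_of_nonneg_left h1 c.le
  have h6 := mul_le_mul_of_nonneg_left h3 c.le
  nlinarith [mul_nonneg c.le (norm_nonneg (j' t ξ))]

theorem ne {t : ℝ} {ξ : V × V} (h0 : J t ξ = 0) (h1 : J' t ξ = 0) : ξ = 0 := by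
  have := h.dn t ξ
  rw [h0, h1, norm_zero, add_zero, mul_zero] at this
  exact h.inj t ξ (norm_le_zero_iff.1 (by linarith [norm_nonneg (j' t ξ)]))
    (norm_le_zero_iff.1 (by linarith [norm_nonneg (j t ξ)]))

variable {θ s t : ℝ} (ha : 0 < a) (θ0 : 0 < θ) (θ1 : θ < 1) (θa : θ < a) (hst : s ≤ t)
  (hT : (1 + a) * C ^ 2 ≤ θ * (t - s))
include ha θ0 θ1 θa hst hT

omit θ1 θa hst in
theorem lt : s < t := by
  have := h.C0
  exact sub_pos.1 ((mul_pos_iff_of_pos_left θ0).1 (lt_of_lt_of_le (by positivity) hT))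

omit θ1 θa in
theorem est {ξ : V × V} (h0 : j s ξ = 0) (h1 : τ' ξ = 0) :
    a * ‖J t ξ‖ ^ 2 - θ * (‖J t ξ‖ + ‖J' t ξ‖) * ‖J t ξ‖ ≤ ⟪J t ξ, J' t ξ⟫ := by
  refine le_trans ?_ ((h.fn ξ (h.tau h0 h1) h1).low ha.le hst)
  have h2 := h.small h0 hst
  have h3 := sub_pos.2 (h.lt ha θ0 hT)
  have h4 : ‖J' s ξ‖ + a * ‖J s ξ‖ ≤ θ * (‖J t ξ‖ + ‖J' t ξ‖) := by
    refine le_of_mul_le_mul_left ?_ h3
    have k1 := mul_le_mul_of_nonneg_left h2 (by positivity : 0 ≤ 1 + a)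
    have k2 := mul_le_mul_of_nonneg_right hT (by positivity : 0 ≤ ‖J t ξ‖ + ‖J' t ξ‖)
    nlinarith [mul_nonneg h3.le (norm_nonneg (J s ξ)),
      mul_nonneg h3.le (mul_nonneg ha.le (norm_nonneg (J' s ξ)))]
  have := mul_le_mul_of_nonneg_right h4 (norm_nonneg (J t ξ))
  linarith

theorem nrm {ξ : V × V} (h0 : j s ξ = 0) (h1 : τ' ξ = 0) :
    (a - θ) * ‖J t ξ‖ ≤ (1 + θ) * ‖J' t ξ‖ := by
  have h2 := (h.est ha θ0 hst hT h0 h1).trans (real_inner_le_norm _ _)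
  rcases (norm_nonneg (J t ξ)).eq_or_lt with e | e
  · rw [← e, mul_zero]
    positivity
  · refine le_of_mul_le_mul_left ?_ e
    linarith

theorem inj' {ξ : V × V} (h0 : j s ξ = 0) (h1 : J' t ξ = 0) : ξ = 0 := by
  have h2 : τ' ξ = 0 := by rw [← h.tn' t, h1, inner_zero_right]
  have h3 := h.nrm ha θ0 θ1 θa hst hT h0 h2
  rw [h1, norm_zero, mul_zero] at h3
  exact h.ne (norm_le_zero_iff.1 (le_of_mul_le_mul_left (by rwa [mul_zero]) (sub_pos.2 θa))) h1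

theorem sur : ∃ ι : V →ₗ[ℝ] V × V, (∀ y, j s (ι y) = 0 ∧ J' t (ι y) = y) ∧
    ∀ ξ, j s ξ = 0 → ι (J' t ξ) = ξ := by
  obtain ⟨ι, hι⟩ := h.io s
  have h1 : Function.Injective (J' t ∘ₗ ι) := (injective_iff_map_eq_zero _).2 fun e he => by
    rw [← (hι e).2, h.inj' ha θ0 θ1 θa hst hT (hι e).1 he, map_zero]
  let E := LinearEquiv.ofInjectiveEndo _ h1
  have h2 : ∀ y, j s (ι (E.symm y)) = 0 ∧ J' t (ι (E.symm y)) = y := fun y =>
    ⟨(hι _).1, E.apply_symm_apply y⟩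
  refine ⟨ι ∘ₗ E.symm.toLinearMap, h2, fun ξ hξ => sub_eq_zero.1 (h.inj' ha θ0 θ1 θa hst hT ?_ ?_)⟩
  · rw [map_sub, hξ, sub_zero]
    exact (h2 _).1
  · rw [map_sub, sub_eq_zero]
    exact (h2 _).2

theorem nonneg {ξ : V × V} (h0 : j s ξ = 0) : 0 ≤ ⟪J t ξ, J' t ξ⟫ := by
  obtain ⟨ι, h1, h2⟩ := h.sur ha θ0 θ1 θa hst hT
  have := nonneg_of_eig (B := J t ∘ₗ ι) (fun y y' => by
    have := h.lag (h1 y).1 (h1 y').1 t
    rwa [(h1 y).2, (h1 y').2] at this) (fun β y hy e => not_lt.1 fun hβ => ?_) (J' t ξ)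
  · rwa [LinearMap.comp_apply, h2 ξ h0] at this
  rw [LinearMap.comp_apply] at e
  have k1 := h.tn t (ι y)
  have k2 := h.tn' t (ι y)
  have k3 := h.tm s (ι y)
  rw [(h1 y).2] at k2
  rw [(h1 y).1, inner_zero_right] at k3
  rw [e, real_inner_smul_right, k2] at k1
  have k4 : τ' (ι y) = 0 := (mul_eq_zero.1 (by linarith : (t - s - β) * τ' (ι y) = 0)).resolve_left
    (by linarith)
  have k5 := h.est ha θ0 hst hT (h1 y).1 k4
  rw [e, (h1 y).2, real_inner_smul_left, real_inner_self_eq_norm_sq, norm_smul,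
    Real.norm_of_nonpos hβ.le] at k5
  have k6 : 0 < ‖y‖ ^ 2 := by positivity
  nlinarith [mul_pos (mul_pos (neg_pos.2 hβ) k6) (sub_pos.2 θ1),
    mul_pos (mul_pos (mul_pos_of_neg_of_neg hβ hβ) k6) (sub_pos.2 θa)]

theorem pos (hT' : 1 ≤ t - s) {ξ : V × V} (h0 : j s ξ = 0) (h1 : τ' ξ = 0) (hξ : ξ ≠ 0) :
    0 < ⟪J t ξ, J' t ξ⟫ := by
  refine (h.nonneg ha θ0 θ1 θa hst hT h0).lt_of_ne' fun e => hξ ?_
  have k0 : J t ξ = 0 := by
    obtain ⟨ι, k1, -⟩ := h.sur ha θ0 θ1 θa hst hT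
    have k2 : ∀ r : ℝ, 0 ≤ ⟪J t (ι (J t ξ)), J t ξ⟫ * (r * r) + 2 * ‖J t ξ‖ ^ 2 * r + 0 := fun r => by
      have k3 := h.nonneg ha θ0 θ1 θa hst hT (ξ := ξ + r • ι (J t ξ)) (by simp [h0, (k1 _).1])
      have k4 := h.lag h0 (k1 (J t ξ)).1 t
      simp only [map_add, map_smul, (k1 _).2, inner_add_left, inner_add_right, e,
        real_inner_smul_left, real_inner_smul_right, real_inner_self_eq_norm_sq] at k3 k4
      rw [real_inner_comm] at k4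
      rw [← k4] at k3
      linarith
    have := discrim_le_zero k2
    rw [discrim, mul_zero, sub_zero] at this
    simpa using this
  have k1 := (h.fn ξ (h.tau h0 h1) h1).grow' k0 hst
  have k2 := h.small h0 hst
  rw [k0, norm_zero, zero_add] at k2
  refine h.ne k0 (norm_le_zero_iff.1 (not_lt.1 fun k3 => ?_))
  have k4 := mul_le_mul_of_nonneg_left k1 (sub_nonneg.2 hst)
  have k5 : C ^ 2 < (t - s) * (t - s) := by nlinarith [mul_nonneg ha.le (sq_nonneg C)]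
  nlinarith [mul_nonneg (sub_nonneg.2 hst) (norm_nonneg (J' s ξ)), mul_pos (sub_pos.2 k5) k3]

end Sys

section Main

variable {a C : ℝ} {j j' J J' : ℝ → V × V →ₗ[ℝ] V} {τ τ' : V × V →ₗ[ℝ] ℝ} {p q : ℝ → V}

/-- One half of the diamond. -/
theorem Sys.half (h : Sys a C j j' J J' τ τ' p q) (ha : 0 < a) {θ : ℝ} (θ0 : 0 < θ) (θ1 : θ < 1)
    (θa : θ < a) {s t : ℝ} {ξ : V × V} (h0 : j s ξ = 0) (h1 : τ' ξ = 0) :
    (a - θ) * ⟪J t ξ, J' t ξ⟫ ≤ (1 + θ) * ‖J' t ξ‖ ^ 2 ∧ (J' t ξ = 0 → ξ = 0) := by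
  obtain ⟨T, T1, T2⟩ : ∃ T : ℝ, 1 ≤ T ∧ (1 + a) * C ^ 2 ≤ θ * T :=
    ⟨max 1 ((1 + a) * C ^ 2 / θ), le_max_left _ _, (div_le_iff₀' θ0).1 (le_max_right _ _)⟩
  obtain ⟨s₁, a1, a2⟩ : ∃ s₁, s₁ ≤ s ∧ T ≤ t - s₁ :=
    ⟨min s (t - T), min_le_left _ _, by linarith [min_le_right s (t - T)]⟩
  obtain ⟨s₂, b1, b2⟩ : ∃ s₂, s ≤ s₂ ∧ T ≤ -t - -s₂ :=
    ⟨max s (t + T), le_max_left _ _, by linarith [le_max_right s (t + T)]⟩
  have a3 : s₁ ≤ t := by linarith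
  have b3 : -s₂ ≤ -t := by linarith
  have a4 := T2.trans (mul_le_mul_of_nonneg_left a2 θ0.le)
  have b4 := T2.trans (mul_le_mul_of_nonneg_left b2 θ0.le)
  obtain ⟨ι, hι⟩ := h.io s₁
  have i1 : Function.Injective (j s₂ ∘ₗ ι) := (injective_iff_map_eq_zero _).2 fun e he => by
    have := (h.fm (ι e)).grow (hι e).1 (t := s₂) (by linarith)
    rw [(hι e).2, show j s₂ (ι e) = 0 from he, norm_zero] at this
    exact norm_le_zero_iff.1 (le_of_mul_le_mul_left (by rwa [mul_zero]) (by linarith : 0 < s₂ - s₁))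
  obtain ⟨e, he⟩ := LinearMap.surjective_of_injective i1 (j s₂ ξ)
  obtain ⟨ξ₁, ξ₂, c1, c2, rfl⟩ : ∃ ξ₁ ξ₂, j s₁ ξ₁ = 0 ∧ j s₂ ξ₂ = 0 ∧ ξ = ξ₁ + ξ₂ :=
    ⟨ι e, ξ - ι e, (hι e).1, by rw [map_sub, ← he]; exact sub_self _, by abel⟩
  have t0 := h.tau h0 h1
  have t1 := h.tm s₁ ξ₁
  have t2 := h.tm s₂ ξ₂
  rw [map_add] at h0 h1 t0
  rw [c1, inner_zero_right] at t1
  rw [c2, inner_zero_right] at t2
  have t3 : τ' ξ₁ = 0 := (mul_eq_zero.1 (by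
    linear_combination t1 + t2 + t0 + s₂ * h1 : (s₂ - s₁) * τ' ξ₁ = 0)).resolve_left (by linarith)
  have t4 : τ' ξ₂ = 0 := by linarith
  have om : 0 ≤ ⟪J t ξ₁, J' t ξ₂⟫ - ⟪J' t ξ₁, J t ξ₂⟫ := by
    have m1 := (h.fm ξ₁).mono a1
    have m2 := (h.fm ξ₂).mono b1
    simp only [c1, c2, inner_zero_left] at m1 m2
    rw [h.symp _ _ s, eq_neg_of_add_eq_zero_left h0, inner_neg_left, real_inner_comm (j s ξ₂)]
    rw [eq_neg_of_add_eq_zero_left h0, inner_neg_left] at m1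
    linarith
  have n2 : ⟪J t ξ₂, J' t ξ₂⟫ ≤ 0 := by
    simpa using h.rev.nonneg ha θ0 θ1 θa b3 b4 (ξ := ξ₂) (by simpa using c2)
  refine ⟨?_, fun z => ?_⟩
  · obtain ⟨κ, k1, -⟩ := h.sur ha θ0 θ1 θa a3 a4
    obtain ⟨η, k2, k3⟩ : ∃ η, j s₁ η = 0 ∧ J' t η = J' t (ξ₁ + ξ₂) := ⟨_, k1 _⟩
    have k4 : τ' η = 0 := by rw [← h.tn' t, k3, h.tn', map_add, h1]
    have k5 := h.nrm ha θ0 θ1 θa a3 a4 k2 k4
    have z1 : j s₁ (ξ₁ - η) = 0 := by rw [map_sub, c1, k2, sub_zero]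
    have k6 := h.nonneg ha θ0 θ1 θa a3 a4 z1
    have k7 := h.lag z1 c1 t
    have z2 : J' t (ξ₁ - η) = -J' t ξ₂ := by rw [map_sub, k3, map_add]; abel
    have k8 : ⟪J t (ξ₁ + ξ₂), J' t (ξ₁ + ξ₂)⟫ ≤ ⟪J t η, J' t η⟫ := by
      have : J t (ξ₁ + ξ₂) = J t η + (J t (ξ₁ - η) + J t ξ₂) := by rw [map_add, map_sub]; abel
      rw [this, inner_add_left, k3, add_le_iff_nonpos_right, map_add, inner_add_left,
        inner_add_right, inner_add_right, k7, real_inner_comm (J' t ξ₁)]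
      rw [z2, inner_neg_right] at k6
      rw [z2, inner_neg_left, real_inner_comm (J t ξ₁)]
      linarith
    have k9 := k8.trans (real_inner_le_norm _ _)
    have := mul_le_mul_of_nonneg_right k5 (norm_nonneg (J' t η))
    rw [← k3]
    rw [← k3] at k9
    nlinarith [mul_le_mul_of_nonneg_left k9 (sub_pos.2 θa).le]
  · rw [map_add] at z
    have n1 := h.nonneg ha θ0 θ1 θa a3 a4 c1
    have z1 := eq_neg_of_add_eq_zero_right z
    rw [z1, inner_neg_right] at om n2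
    rw [real_inner_comm (J t ξ₂)] at om
    have e1 : ξ₁ = 0 := by_contra fun e =>
      absurd (h.pos ha θ0 θ1 θa a3 a4 (by linarith) c1 t3 e) (by linarith)
    have e2 : ξ₂ = 0 := h.rev.inj' ha θ0 θ1 θa b3 b4 (ξ := ξ₂) (by simpa using c2)
      (by simp [z1, e1])
    rw [e1, e2, add_zero]

theorem Sys.dia (h : Sys a C j j' J J' τ τ' p q) (ha : 0 < a) {s t : ℝ} {ξ : V × V}
    (h0 : j s ξ = 0) (h1 : τ' ξ = 0) :
    a * |⟪J t ξ, J' t ξ⟫| ≤ ‖J' t ξ‖ ^ 2 ∧ (J' t ξ = 0 → ξ = 0) := by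
  have m0 : 0 < min 1 a := lt_min one_pos ha
  refine ⟨?_, (h.half ha (half_pos m0) ((half_lt_self m0).trans_le (min_le_left _ _))
    ((half_lt_self m0).trans_le (min_le_right _ _)) h0 h1).2⟩
  have k : ∀ θ ∈ Ioo 0 (min 1 a),
      (a - θ) * |⟪J t ξ, J' t ξ⟫| - (1 + θ) * ‖J' t ξ‖ ^ 2 ≤ 0 := fun θ hθ => by
    have θ1 := hθ.2.trans_le (min_le_left _ _)
    have θa := hθ.2.trans_le (min_le_right _ _)
    have k1 := (h.half ha hθ.1 θ1 θa (t := t) h0 h1).1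
    have k2 := (h.rev.half ha hθ.1 θ1 θa (s := -s) (t := -t) (ξ := ξ) (by simpa using h0)
      (by simpa using h1)).1
    simp only [neg_neg, LinearMap.neg_apply, inner_neg_right, norm_neg] at k2
    rcases abs_choice ⟪J t ξ, J' t ξ⟫ with e | e <;> rw [e] <;> linarith
  have c : Continuous fun θ : ℝ => (a - θ) * |⟪J t ξ, J' t ξ⟫| - (1 + θ) * ‖J' t ξ‖ ^ 2 := by
    fun_prop
  have := le_of_tendsto ((c.tendsto 0).mono_left (nhdsWithin_le_nhds (s := Ioi 0)))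
    (mem_of_superset (Ioo_mem_nhdsGT m0) k)
  simpa using this

theorem exists_T (a C : ℝ) (ha : 0 < a) : ∃ T, ∀ {j j' J J' τ τ' p q},
    Sys a C j j' J J' τ τ' p q → ∀ s t ξ, s + T ≤ t → j s ξ = 0 → τ' ξ = 0 → ξ ≠ 0 →
      0 < ⟪J t ξ, J' t ξ⟫ := by
  have m0 : 0 < min 1 a := lt_min one_pos ha
  refine ⟨max 1 ((1 + a) * C ^ 2 / (min 1 a / 2)), fun h s t ξ hT h0 h1 h2 => ?_⟩
  have k1 := le_max_left 1 ((1 + a) * C ^ 2 / (min 1 a / 2))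
  have k2 := le_max_right 1 ((1 + a) * C ^ 2 / (min 1 a / 2))
  exact h.pos ha (half_pos m0) ((half_lt_self m0).trans_le (min_le_left _ _))
    ((half_lt_self m0).trans_le (min_le_right _ _)) (by linarith)
    ((div_le_iff₀' (half_pos m0)).1 (by linarith)) (by linarith) h0 h1 h2

end Main

end

end Pool.Agent.MP_3ee8cb_gt.DN.Dia
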