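import Pool.Agent.MP_3ee8cb_gt.DNSC.Sc
import Pool.Agent.MP_3ee8cb_gt.DN.Spec2

/-! The operator `B` of the fronts is continuous and equivariant. -/

namespace Pool.Agent.MP_3ee8cb_gt.DN

variable [Dim]

open Set Filter Topology SC
open scoped RealInnerProductSpace

noncomputable section

namespace Sc2

theorem equiv {P : V →L[ℝ] V} (h : P.det ≠ 0) : ∃ e : V ≃L[ℝ] V, (e : V →L[ℝ] V) = P :=
  ⟨P.toContinuousLinearEquivOfDetNeZero h, P.coe_toContinuousLinearEquivOfDetNeZero h⟩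

theorem c_inv {X : Type} [TopologicalSpace X] {P : X → V →L[ℝ] V} {s : Set X}
    (hP : ContinuousOn P s) (h : ∀ x ∈ s, (P x).det ≠ 0) :
    ContinuousOn (fun x => (P x).inverse) s := fun x hx => by
  obtain ⟨e, he⟩ := equiv (h x hx)
  have := (contDiffAt_map_inverse (𝕜 := ℝ) (n := 0) e).continuousAt
  rw [he] at this
  exact this.comp_continuousWithinAt (hP x hx)

theorem c_tr : Continuous fun P : V →L[ℝ] V => LinearMap.trace ℝ V (P : V →ₗ[ℝ] V) :=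
  ((LinearMap.trace ℝ V).comp (ContinuousLinearMap.coeLM ℝ)).continuous_of_finiteDimensional

/-- Conjugation by isometries. -/
theorem conj (O O' : V ≃ₗᵢ[ℝ] V) {A A' D D' : V →L[ℝ] V} (h0 : A'.det ≠ 0)
    (h : ∀ v, D (O v) = O' (A v)) (h' : ∀ v, D' (O v) = O' (A' v)) : |D'.det| = |A'.det| ∧
    LinearMap.trace ℝ V (D.comp D'.inverse : V →ₗ[ℝ] V) =
      LinearMap.trace ℝ V (A.comp A'.inverse : V →ₗ[ℝ] V) ∧
    ‖D.comp D'.inverse‖ = ‖A.comp A'.inverse‖ := by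
  obtain ⟨ε, e1, e2⟩ := det_conj O O'
  have k0 : |D'.det| = |A'.det| := by rw [e2 _ _ h', abs_mul, e1, one_mul]
  obtain ⟨a, rfl⟩ := equiv h0
  obtain ⟨d, rfl⟩ := equiv (abs_ne_zero.1 (k0 ▸ abs_ne_zero.2 h0))
  rw [ContinuousLinearMap.inverse_equiv, ContinuousLinearMap.inverse_equiv]
  have k : ∀ y, D (d.symm y) = O' (A (a.symm (O'.symm y))) := fun y => by
    rw [← h]
    congr 1
    refine d.injective ?_
    rw [d.apply_symm_apply]
    exact ((h' _).trans (by simp)).symm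
  refine ⟨k0, ?_, ?_⟩
  · rw [← LinearMap.trace_conj' (A.comp (a.symm : V →L[ℝ] V) : V →ₗ[ℝ] V) O'.toLinearEquiv]
    congr 1
    exact LinearMap.ext k
  · rw [← O'.toLinearIsometry.norm_toContinuousLinearMap_comp (g := A.comp (a.symm : V →L[ℝ] V)),
      ← ContinuousLinearMap.opNorm_comp_linearIsometryEquiv
        (O'.toLinearIsometry.toContinuousLinearMap.comp _) O'.symm]
    congr 1
    exact ContinuousLinearMap.ext k

end Sc2

/-- The scalars of the Riccati inequality are continuous and invariant. -/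
structure Sc2 (m' : MF) (φ : V × V → V × V) (Γ : Type) [Group Γ] [MulAction Γ V]
    (O : Γ → V → V ≃ₗᵢ[ℝ] V) : Prop where
  cy : ContinuousOn (fun z : V × V => |(m'.A' (fr φ z.1) z.2).det|) {z | ‖z.2‖ = 1}
  cB : ContinuousOn (fun z : V × V => m'.B (fr φ z.1) z.2) {z | ‖z.2‖ = 1}
  ctr : ContinuousOn (fun z : V × V => m'.tr (fr φ z.1) z.2) {z | ‖z.2‖ = 1}
  inv : ∀ (γ : Γ) (z : V × V), ‖z.2‖ = 1 →
    |(m'.A' (fr φ (γ • z.1)) (O γ z.1 z.2)).det| = |(m'.A' (fr φ z.1) z.2).det| ∧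
    m'.tr (fr φ (γ • z.1)) (O γ z.1 z.2) = m'.tr (fr φ z.1) z.2 ∧
    ‖m'.B (fr φ (γ • z.1)) (O γ z.1 z.2)‖ = ‖m'.B (fr φ z.1) z.2‖
  zero : ∀ z : V × V, ‖z.2‖ = 1 → m'.B (fr φ z.1) z.2 = 0 → m'.A (fr φ z.1) z.2 = 0

theorem sc2 {m m' : MF} {φ : V × V → V × V} {Γ Λ : Type} [Group Γ] [Group Λ] [MulAction Γ V]
    [MulAction Λ V] {ρ : Γ ≃* Λ} {O : Γ → V → V ≃ₗᵢ[ℝ] V} {O' : Λ → V → V ≃ₗᵢ[ℝ] V}
    (hm' : m'.OK) (hc : CF m m' φ) (ha : Act m' Λ O') (he : Eqv ρ O O' φ)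
    (n0 : ∀ z : V × V, ‖z.2‖ = 1 → (m'.A' (fr φ z.1) z.2).det ≠ 0) : Sc2 m' φ Γ O := by
  have sub : {z : V × V | ‖z.2‖ = 1} ⊆ {z | z.2 ≠ 0} := fun z hz e => by simp [e] at hz
  have c1 := (c_A hm' hc.c1).mono sub
  have c2 := (c_A' hm' hc.c1).mono sub
  have cB := c1.clm_comp (Sc2.c_inv c2 n0)
  refine ⟨(ContinuousLinearMap.continuous_det.comp_continuousOn c2).abs, cB,
    Sc2.c_tr.comp_continuousOn cB, fun γ z hz => ?_, fun z hz k => ?_⟩
  · have h0 := sub hz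
    have e0 : fr φ (γ • z.1) (O γ z.1 z.2) = (ρ γ • (φ z).1, O' (ρ γ) (φ z).1 (φ z).2) :=
      he γ z h0
    refine Sc2.conj (O γ z.1) (O' (ρ γ) (φ z).1) (n0 z hz) (fun v => ?_) fun v => ?_
    · rw [MF.A, ContinuousLinearMap.comp_apply, der_eqv hc.c1 ha he γ h0, e0]
      exact ha.hor _ _ _
    · rw [MF.A', ContinuousLinearMap.comp_apply, der_eqv hc.c1 ha he γ h0, e0]
      exact ha.ver _ _ _
  · obtain ⟨e, he⟩ := Sc2.equiv (n0 z hz)
    ext1 v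
    have := DFunLike.congr_fun k (e v)
    rw [MF.B, ← he] at this
    simpa using this

end

end Pool.Agent.MP_3ee8cb_gt.DN
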